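import Pool.Agent.TH747.HS.FS
import Pool.Agent.H645R2.HT.Univ

/-!
# Two colours: solutions compute `Σ⁰₂` sets

The colouring is the sum modulo two of the number of very short gaps and of the gap sum `C (g2 W p)`.
-/

namespace Pool.Agent.Q314.HT2

open Pool.Agent.H645R2.HT Pool.Agent.Helper446 Pool.Agent.Helper446.RE
  Pool.Agent.Helper446.Oracle

/-- Enumeration of some `z ≤ u` between the stages `v` and `s`. -/
def gv (W : ℕ → ℕ → Bool) (s _x u v : ℕ) : Bool := exB (fun z => W s z && !(W v z)) (u + 1)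

open Classical in
/-- Some `z ≤ u` is enumerated after the stage `v`. -/
noncomputable def Tv (W : ℕ → ℕ → Bool) (u v : ℕ) : Bool :=
  decide (∃ z ≤ u, (∃ s, W s z = true) ∧ W v z = false)

/-- The enumeration below `x` is finished at stage `N`. -/
def Lg (W : ℕ → ℕ → Bool) (x N : ℕ) : Prop := ∀ z ≤ x, ∀ s, W s z = true → W N z = true

/-- The colouring. -/
def col (W : ℕ → ℕ → Bool) (p : ℕ → ℕ) (n : ℕ) : Bool := xor (C (gv W) n) (C (g2 W p) n)

/-- The number modulo two of the short gaps. -/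
noncomputable def S (W : ℕ → ℕ → Bool) (n : ℕ) : Bool := gs (Tv W) (L n)

variable {W : ℕ → ℕ → Bool} {p : ℕ → ℕ}

theorem gv_iff {s x u v : ℕ} :
    gv W s x u v = true ↔ ∃ z ≤ u, W s z = true ∧ W v z = false := by
  unfold gv
  rw [exB_iff]
  simp only [Bool.and_eq_true, Bool.not_eq_true', Nat.lt_succ_iff]

theorem Tv_iff {u v : ℕ} :
    Tv W u v = true ↔ ∃ z ≤ u, (∃ s, W s z = true) ∧ W v z = false := by
  classical
  unfold Tv
  rw [decide_eq_true_iff]

theorem Tv_false {u v : ℕ} : Tv W u v = false ↔ Lg W u v := by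
  rw [← Bool.not_eq_true, Tv_iff]
  unfold Lg
  constructor
  · intro h z hz s hs
    by_contra hc
    exact h ⟨z, hz, ⟨s, hs⟩, by simpa using hc⟩
  · rintro h ⟨z, hz, ⟨s, hs⟩, h'⟩
    rw [h z hz s hs] at h'
    cases h'

theorem Lg.mono (hW : Mon W) {x y M N : ℕ} (h : Lg W x M) (hxy : y ≤ x) (hMN : M ≤ N) :
    Lg W y N := fun z hz s hs => hW _ _ _ hMN (h z (by omega) s hs)

theorem exists_lg (hW : Mon W) (x : ℕ) : ∃ N, Lg W x N := exists_stage hW x

theorem gv_eq {s x u v : ℕ} (h : Lg W u s) : gv W s x u v = Tv W u v := by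
  rw [Bool.eq_iff_iff, gv_iff, Tv_iff]
  refine exists_congr fun z => and_congr_right fun hz => and_congr_left fun _ => ?_
  exact ⟨fun h => ⟨_, h⟩, fun ⟨s', hs'⟩ => h z hz s' hs'⟩

theorem S_add {a b : ℕ} (ha : 0 < a) (hb : 0 < b) (h : Sep a b) :
    S W (a + b) = xor (xor (S W a) (Tv W (mu a) (la b))) (S W b) := gs_add ha hb h

/-- the number of very short gaps of a sum -/
theorem C_gv (hW : Mon W) {a l : ℕ} (ha : 0 < a) (hl : 0 < l) (h : Sep a l)
    (hL : Lg W (mu a) (mu l)) :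
    C (gv W) (a + l) = xor (xor (S W a) (Tv W (mu a) (la l))) (C (gv W) l) := by
  unfold C
  rw [mu_add hl h, la_add ha h, gs_add ha hl h]
  have e1 : gs (gv W (mu l) (la a)) (L a) = S W a := by
    refine gs_congr (L_sorted a).pairwise fun u hu v _ _ => ?_
    exact gv_eq (hL.mono hW (le_mu hu) le_rfl)
  have e2 : gv W (mu l) (la a) (mu a) (la l) = Tv W (mu a) (la l) := gv_eq hL
  rw [e1, e2]
  rfl

theorem C_g2 {a l : ℕ} (ha : 0 < a) (hl : 0 < l) (h : Sep a l) :
    C (g2 W p) (a + l) = xor (xor (gs (g2 W p (mu l) (la a)) (L a))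
      (g2 W p (mu l) (la a) (mu a) (la l))) (gs (g2 W p (mu l) (la a)) (L l)) := by
  unfold C
  rw [mu_add hl h, la_add ha h, gs_add ha hl h]

theorem modOK_single {l : ℕ} (h : Lg W (la l) (mu l)) : ModOK W {l} := by
  intro h' hh'
  rw [Set.mem_singleton_iff] at hh'
  subst hh'
  exact h

theorem g2_eq {l x u v : ℕ} (h : Lg W (la l) (mu l)) (hu : u ≤ la l) (hv : v ≤ la l) :
    g2 W p (mu l) x u v = T2 W p x u v := g2_true (modOK_single h) rfl hu hv

/-- first step: far numbers have an even number of short gaps -/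
theorem stepS (hW : Mon W) {h K l : ℕ} (hh : 0 < h) (hK : 0 < K) (hl : 0 < l) (h1 : Sep h K)
    (h2 : Sep K l) (hcol : col W p (h + l) = col W p (h + (K + l)))
    (hLh : Lg W (mu h) (la K)) (hset : ∀ u, la K ≤ u → Settled W p (la h) u)
    (hLK : Lg W (mu K) (la l)) (hLl : Lg W (la l) (mu l)) : S W K = false := by
  have hKm := la_le_mu hK
  have hlm := la_le_mu hl
  have h3 := sep_trans hK h1 h2
  have h4 : Sep (h + K) l := sep_add_left hK h1 h2
  have hh1 : Sep h (K + l) := sep_add_right hK h1 h2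
  have l1 : la K ≤ la l := by unfold H645R2.HT.Sep at h2; omega
  -- the very short gaps
  have e1 : C (gv W) (h + l) = xor (S W h) (C (gv W) l) := by
    rw [C_gv hW hh hl h3 (hLh.mono hW le_rfl (by omega)),
      Tv_false.2 (hLh.mono hW le_rfl l1), Bool.xor_false]
  have e2 : C (gv W) (h + (K + l)) = xor (xor (S W h) (S W K)) (C (gv W) l) := by
    rw [← add_assoc, C_gv hW (by omega) hl h4 (by rw [mu_add hK h1]; exact hLK.mono hW le_rfl hlm),
      mu_add hK h1, Tv_false.2 hLK, S_add hh hK h1, Tv_false.2 hLh, Bool.xor_false,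
      Bool.xor_false]
  -- the other part
  have f1 : g2 W p (mu l) (la h) (mu h) (la l) = g2 W p (mu l) (la h) (mu h) (la K) := by
    unfold H645R2.HT.Sep at h3
    rw [g2_eq hLl (by omega) le_rfl, g2_eq hLl (by omega) l1]
    unfold T2
    congr 1
    apply propext
    refine exists_congr fun y => and_congr_right fun hy => ?_
    rw [hset (la l) l1 y hy, hset (la K) le_rfl y hy]
  have f2 : gs (g2 W p (mu l) (la h)) (L K) = false := by
    refine gs_false (L_sorted K).pairwise fun u hu v hv _ => ?_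
    have := la_le hu
    have := le_mu hu
    have := la_le hv
    have := le_mu hv
    unfold H645R2.HT.Sep at h2
    rw [g2_eq hLl (by omega) (by omega), T2_false_iff]
    intro y hy
    rw [hset u (by omega) y hy, hset v (by omega) y hy]
  have f3 : g2 W p (mu l) (la h) (mu K) (la l) = false := by
    unfold H645R2.HT.Sep at h2
    rw [g2_eq hLl (by omega) le_rfl, T2_false_iff]
    intro y hy
    rw [hset (mu K) hKm y hy, hset (la l) l1 y hy]
  have e3 : C (g2 W p) (h + (K + l)) = C (g2 W p) (h + l) := by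
    rw [C_g2 hh (by omega) hh1, C_g2 hh hl h3, mu_add hl h2, la_add hK h2, gs_add hK hl h2, f1, f2,
      f3]
    simp
  unfold col at hcol
  rw [e1, e2, e3] at hcol
  revert hcol
  generalize S W h = a
  generalize S W K = b
  generalize C (gv W) l = d
  generalize C (g2 W p) (h + l) = e
  revert a b d e
  decide

/-! ### blocks -/

/-- `R m n`: the number `n` is an admissible block above the position `m` -/
structure Blocks (R : ℕ → ℕ → Prop) : Prop where
  pos : ∀ m n, R m n → 0 < n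
  sep : ∀ m n, R m n → m < la n
  ex : ∀ m, ∃ n, R m n
  mono : ∀ m m' n, m ≤ m' → R m' n → R m n

/-- sums of three, four and five consecutive blocks have one colour -/
def Hom (R : ℕ → ℕ → Prop) (c : ℕ → Bool) : Prop :=
  ∃ i, (∀ a b d, R 0 a → R (mu a) b → R (mu b) d → c (a + (b + d)) = i) ∧
    (∀ a b d e, R 0 a → R (mu a) b → R (mu b) d → R (mu d) e → c (a + (b + (d + e))) = i) ∧
    (∀ a b d e f, R 0 a → R (mu a) b → R (mu b) d → R (mu d) e → R (mu e) f →
      c (a + (b + (d + (e + f)))) = i)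

variable {R : ℕ → ℕ → Prop}

theorem exists_N0 (hW : Mon W) (hB : Blocks R) (hc : Hom R (col W p)) :
    ∃ N0, (∀ b, R N0 b → S W b = false) ∧
      ∀ b d, R N0 b → R (mu b) d → S W (b + d) = false := by
  obtain ⟨i, H3, H4, H5⟩ := hc
  obtain ⟨h, hR⟩ := hB.ex 0
  have hh := hB.pos _ _ hR
  obtain ⟨N1, hN1⟩ := exists_lg hW (mu h)
  obtain ⟨N2, hN2⟩ := exists_settled (W := W) (p := p) (la h)
  refine ⟨max (max N1 N2) (mu h), fun b hb => ?_, fun b d hb hd => ?_⟩
  · have hb0 := hB.pos _ _ hb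
    have hb1 := hB.sep _ _ hb
    obtain ⟨M1, hM1⟩ := exists_lg hW (mu b)
    obtain ⟨x, hx⟩ := hB.ex (max M1 (mu b))
    have hx0 := hB.pos _ _ hx
    have hx1 := hB.sep _ _ hx
    have hxm := la_le_mu hx0
    obtain ⟨M2, hM2⟩ := exists_lg hW (mu x)
    obtain ⟨y, hy⟩ := hB.ex (max M2 (mu x))
    have hy0 := hB.pos _ _ hy
    have hy1 := hB.sep _ _ hy
    have hym := la_le_mu hy0
    have hxy : Sep x y := by unfold H645R2.HT.Sep; omega
    have hbm := la_le_mu hb0
    refine stepS hW (h := h) (l := x + y) hh hb0 (by omega) (by unfold H645R2.HT.Sep; omega)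
      (by unfold H645R2.HT.Sep; rw [la_add hx0 hxy]; omega) ?_ (hN1.mono hW le_rfl (by omega))
      (fun u hu => hN2 u (by omega)) ?_ ?_
    · have r1 : R (mu h) b := hB.mono _ _ _ (by omega) hb
      have r2 : R (mu b) x := hB.mono _ _ _ (by omega) hx
      have r2' : R (mu h) x := hB.mono _ _ _ (by omega) hx
      have r3 : R (mu x) y := hB.mono _ _ _ (by omega) hy
      rw [H3 h x y hR r2' r3, H4 h b x y hR r1 r2 r3]
    · rw [la_add hx0 hxy]
      exact hM1.mono hW le_rfl (by omega)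
    · rw [la_add hx0 hxy, mu_add hy0 hxy]
      exact hM2.mono hW hxm (by omega)
  · have hb0 := hB.pos _ _ hb
    have hb1 := hB.sep _ _ hb
    have hbm := la_le_mu hb0
    have hd0 := hB.pos _ _ hd
    have hd1 := hB.sep _ _ hd
    have hdm := la_le_mu hd0
    have hbd : Sep b d := hd1
    obtain ⟨M1, hM1⟩ := exists_lg hW (mu d)
    obtain ⟨x, hx⟩ := hB.ex (max M1 (mu d))
    have hx0 := hB.pos _ _ hx
    have hx1 := hB.sep _ _ hx
    have hxm := la_le_mu hx0
    obtain ⟨M2, hM2⟩ := exists_lg hW (mu x)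
    obtain ⟨y, hy⟩ := hB.ex (max M2 (mu x))
    have hy0 := hB.pos _ _ hy
    have hy1 := hB.sep _ _ hy
    have hym := la_le_mu hy0
    have hxy : Sep x y := by unfold H645R2.HT.Sep; omega
    have e1 : mu (b + d) = mu d := mu_add hd0 hbd
    have e2 : la (b + d) = la b := la_add hb0 hbd
    refine stepS hW (h := h) (l := x + y) hh (by omega) (by omega)
      (by unfold H645R2.HT.Sep; rw [e2]; omega)
      (by unfold H645R2.HT.Sep; rw [la_add hx0 hxy, e1]; omega) ?_
      (by rw [e2]; exact hN1.mono hW le_rfl (by omega))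
      (fun u hu => hN2 u (by rw [e2] at hu; omega)) ?_ ?_
    · have r1 : R (mu h) b := hB.mono _ _ _ (by omega) hb
      have r2 : R (mu d) x := hB.mono _ _ _ (by omega) hx
      have r2' : R (mu h) x := hB.mono _ _ _ (by omega) hx
      have r3 : R (mu x) y := hB.mono _ _ _ (by omega) hy
      rw [H3 h x y hR r2' r3, add_assoc b d (x + y), H5 h b d x y hR r1 hd r2 r3]
    · rw [la_add hx0 hxy, e1]
      exact hM1.mono hW le_rfl (by omega)
    · rw [la_add hx0 hxy, mu_add hy0 hxy]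
      exact hM2.mono hW hxm (by omega)

/-- what is needed of `N0` -/
structure Base (W : ℕ → ℕ → Bool) (R : ℕ → ℕ → Prop) (N0 : ℕ) : Prop where
  one : ∀ b, R N0 b → S W b = false
  two : ∀ b d, R N0 b → R (mu b) d → S W (b + d) = false

theorem Base.long {N0 : ℕ} (hB : Blocks R) (h : Base W R N0) {b d : ℕ} (hb : R N0 b)
    (hd : R (mu b) d) : Lg W (mu b) (la d) := by
  have hb0 := hB.pos _ _ hb
  have hb1 := hB.sep _ _ hb
  have hbm := la_le_mu hb0
  have hd0 := hB.pos _ _ hd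
  have h1 := h.two b d hb hd
  rw [S_add hb0 hd0 (hB.sep _ _ hd), h.one b hb,
    h.one d (hB.mono _ _ _ (by omega) hd)] at h1
  rw [← Tv_false]
  simpa using h1

/-- a chain of four blocks, the last two of which are added -/
structure Chain (R : ℕ → ℕ → Prop) (N0 h k x y : ℕ) : Prop where
  rh : R N0 h
  rk : R (mu h) k
  rx : R (mu k) x
  ry : R (mu x) y

theorem rr_eq' {h k l : ℕ} (hk : 0 < k) (hl : Lg W (la l) (mu l)) (hhk : Sep h k)
    (hkl : Sep k l) : rr W p h k l = rt W p h k := by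
  unfold rr rt
  have h1 := la_le_mu hk
  unfold H645R2.HT.Sep at hhk hkl
  rw [g2_eq hl (by omega) (by omega)]
  congr 1
  refine gs_congr (L_sorted k).pairwise fun a ha b hb _ => ?_
  have := le_mu ha
  have := le_mu hb
  exact g2_eq hl (by omega) (by omega)

section chain

variable {N0 h k x y : ℕ}

theorem Chain.good (hW : Mon W) (hB : Blocks R) (hb : Base W R N0) (hc : Chain R N0 h k x y) :
    0 < h ∧ 0 < k ∧ 0 < x ∧ 0 < y ∧ Sep h k ∧ Sep k x ∧ Sep x y ∧ la (x + y) = la x ∧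
      mu (x + y) = mu y ∧ Lg W (mu h) (la x) ∧ Lg W (mu k) (la x) ∧
      Lg W (la (x + y)) (mu (x + y)) ∧ R N0 k ∧ R (mu h) x := by
  have hh0 := hB.pos _ _ hc.rh
  have hk0 := hB.pos _ _ hc.rk
  have hx0 := hB.pos _ _ hc.rx
  have hy0 := hB.pos _ _ hc.ry
  have s1 : Sep h k := hB.sep _ _ hc.rk
  have s2 : Sep k x := hB.sep _ _ hc.rx
  have s3 : Sep x y := hB.sep _ _ hc.ry
  have e1 := la_add hx0 s3
  have e2 := mu_add hy0 s3
  have hN := hB.sep _ _ hc.rh
  have m1 := la_le_mu hh0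
  have m2 := la_le_mu hk0
  have m3 := la_le_mu hx0
  have m4 := la_le_mu hy0
  have r1 : R (mu h) x := hB.mono _ _ _ (by unfold H645R2.HT.Sep at s1; omega) hc.rx
  have r2 : R N0 k := hB.mono _ _ _ (by omega) hc.rk
  have r3 : R N0 x := hB.mono _ _ _ (by unfold H645R2.HT.Sep at s1; omega) hc.rx
  refine ⟨hh0, hk0, hx0, hy0, s1, s2, s3, e1, e2, hb.long hB hc.rh r1, hb.long hB r2 hc.rx, ?_,
    r2, r1⟩
  rw [e1, e2]
  exact (hb.long hB r3 hc.ry).mono hW m3 m4

theorem Chain.rel (hW : Mon W) (hB : Blocks R) (hb : Base W R N0) (hc : Hom R (col W p))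
    (H : Chain R N0 h k x y) :
    T2 W p (la h) (mu h) (la x) = xor (rt W p h k) (T2 W p (la h) (mu k) (la x)) := by
  obtain ⟨hh0, hk0, hx0, hy0, s1, s2, s3, e1, e2, g1, g3, g4, r2, r1⟩ := H.good hW hB hb
  obtain ⟨i, H3, H4, -⟩ := hc
  have hl0 : 0 < x + y := by omega
  have m3 := la_le_mu hx0
  have m4 := la_le_mu hy0
  have s4 : Sep k (x + y) := by unfold H645R2.HT.Sep; rw [e1]; exact s2
  have s5 : Sep h (x + y) := sep_trans hk0 s1 s4
  have s6 : Sep (h + k) (x + y) := sep_add_left hk0 s1 s4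
  have r0 : R 0 h := hB.mono _ _ _ (Nat.zero_le _) H.rh
  have hcol : col W p (h + (x + y)) = col W p (h + (k + (x + y))) := by
    rw [H3 h x y r0 r1 H.ry, H4 h k x y r0 H.rk H.rx H.ry]
  have hmu : la x ≤ mu (x + y) := by
    rw [e2]
    unfold H645R2.HT.Sep at s3
    omega
  have v1 : C (gv W) (h + (x + y)) = C (gv W) (x + y) := by
    rw [C_gv hW hh0 hl0 s5 (g1.mono hW le_rfl hmu), hb.one h H.rh, e1, Tv_false.2 g1]
    simp
  have v2 : C (gv W) (h + (k + (x + y))) = C (gv W) (x + y) := by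
    rw [← add_assoc, C_gv hW (by omega) hl0 s6
      (by rw [mu_add hk0 s1]; exact g3.mono hW le_rfl hmu), hb.two h k H.rh H.rk,
      mu_add hk0 s1, e1, Tv_false.2 g3]
    simp
  have hC : C (g2 W p) (h + (x + y)) = C (g2 W p) (h + (k + (x + y))) := by
    unfold col at hcol
    rw [v1, v2] at hcol
    revert hcol
    generalize C (gv W) (x + y) = a
    generalize C (g2 W p) (h + (x + y)) = b
    generalize C (g2 W p) (h + (k + (x + y))) = d
    revert a b d
    decide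
  have h1 := Pool.Agent.H645R2.HT.rel hh0 hk0 hl0 s1 s4 hC
  have h3 : xor (g2 W p (mu (x + y)) (la h) (mu h) (la k))
      (gs (g2 W p (mu (x + y)) (la h)) (L k)) = rt W p h k := rr_eq' hk0 g4 s1 s4
  rw [h3] at h1
  unfold H645R2.HT.Sep at s4 s5
  rw [g2_eq g4 (by omega) le_rfl, g2_eq g4 (by omega) le_rfl, e1] at h1
  exact h1

end chain

/-- A positive test certifies that `mu k` is settled. -/
theorem settled_of_rt' (hW : Mon W) (hB : Blocks R) {N0 : ℕ} (hb : Base W R N0)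
    (hc : Hom R (col W p)) {h k : ℕ} (hh : R N0 h) (hk : R (mu h) k)
    (hr : rt W p h k = true) : Settled W p (la h) (mu k) := by
  obtain ⟨N, hN⟩ := exists_settled (W := W) (p := p) (la h)
  obtain ⟨x, hx⟩ := hB.ex (max N (mu k))
  obtain ⟨y, hy⟩ := hB.ex (mu x)
  have H : Chain R N0 h k x y := ⟨hh, hk, hB.mono _ _ _ (by omega) hx, hy⟩
  have hxl := hB.sep _ _ hx
  have h1 := H.rel hW hB hb hc
  rw [hr] at h1
  have hs := hN (la x) (by omega)
  cases h2 : T2 W p (la h) (mu k) (la x)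
  · rw [T2_false_iff] at h2
    intro z hz
    rw [h2 z hz]
    exact hs z hz
  · rw [h2] at h1
    have h3 : T2 W p (la h) (mu h) (la x) = false := by rw [h1]; rfl
    rw [T2_false_iff] at h3
    intro z hz
    refine ⟨TA_A, fun ha => ?_⟩
    have h4 := (hs z hz).2 ha
    have h5 := (h3 z hz).2 h4
    refine TA_mono ?_ h5
    have := hB.sep _ _ hk
    have := la_le_mu (hB.pos _ _ hk)
    omega

/-- If `mu h` is not settled, the test is positive for all far `k`. -/
theorem rt_of_not_settled' (hW : Mon W) (hB : Blocks R) {N0 : ℕ} (hb : Base W R N0)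
    (hc : Hom R (col W p)) {h : ℕ} (hh : R N0 h) (hn : ¬ Settled W p (la h) (mu h)) :
    ∃ k, R (mu h) k ∧ rt W p h k = true := by
  obtain ⟨N, hN⟩ := exists_settled (W := W) (p := p) (la h)
  obtain ⟨k, hk⟩ := hB.ex (max N (mu h))
  have hk' : R (mu h) k := hB.mono _ _ _ (by omega) hk
  obtain ⟨x, hx⟩ := hB.ex (mu k)
  obtain ⟨y, hy⟩ := hB.ex (mu x)
  have H : Chain R N0 h k x y := ⟨hh, hk', hx, hy⟩
  have h1 := H.rel hW hB hb hc
  have hk1 := hB.sep _ _ hk
  have hkm := la_le_mu (hB.pos _ _ hk)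
  have hx1 := hB.sep _ _ hx
  have hs1 := hN (mu k) (by omega)
  have hs2 := hN (la x) (by omega)
  have h2 : T2 W p (la h) (mu k) (la x) = false := by
    rw [T2_false_iff]
    intro z hz
    rw [hs1 z hz, hs2 z hz]
  have h3 : T2 W p (la h) (mu h) (la x) = true := by
    rw [← Bool.not_eq_false, T2_false_iff]
    intro hc
    apply hn
    intro z hz
    rw [hc z hz]
    exact hs2 z hz
  refine ⟨k, hk', ?_⟩
  rw [h2, h3] at h1
  cases h4 : rt W p h k
  · rw [h4] at h1; cases h1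
  · rfl

theorem inA_lg {s u z : ℕ} (h : Lg W u s) : inA W p s u z = true ↔ TA W p u z := by
  rw [inA_iff]
  unfold TA
  constructor
  · rintro ⟨w, hw, h1, h2⟩
    refine ⟨w, hw, h1, fun t => ?_⟩
    by_contra hc
    rw [Bool.not_eq_false] at hc
    rw [h w hw t hc] at h2
    cases h2
  · rintro ⟨w, hw, h1, h2⟩
    exact ⟨w, hw, h1, h2 _⟩

theorem cr {α : Type*} [Primcodable α] {X : Set ℕ} (hR : REIn X fun q : ℕ × ℕ => R q.1 q.2)
    {f g : α → ℕ} (hf : Computable f) (hg : Computable g) : REIn X fun a => R (f a) (g a) :=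
  hR.comp (f := fun a => (f a, g a)) (hf.pair hg)

/-- Solutions compute `A`. -/
theorem computes' (hW : Mon W) (hcW : Computable fun q : ℕ × ℕ => W q.1 q.2)
    (hpc : Computable p) (hB : Blocks R) (hc : Hom R (col W p)) {X : Set ℕ}
    (hR : REIn X fun q : ℕ × ℕ => R q.1 q.2) :
    REIn X (fun y => A W p y) ∧ REIn X (fun y => ¬ A W p y) := by
  obtain ⟨N0, h1, h2⟩ := exists_N0 hW hB hc
  have hb : Base W R N0 := ⟨h1, h2⟩
  by_cases hcase : ∀ N, ∃ h, R N0 h ∧ N < la h ∧ ¬ Settled W p (la h) (mu h)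
  · -- use positive tests
    have key : ∀ b : Bool, REIn X (fun z => ∃ q : ℕ × ℕ × ℕ × ℕ,
        R N0 q.1 ∧ R (mu q.1) q.2.1 ∧ R (mu q.2.1) q.2.2.1 ∧ R (mu q.2.2.1) q.2.2.2 ∧
        (z < la q.1 ∧ rr W p q.1 q.2.1 (q.2.2.1 + q.2.2.2) = true ∧
          inA W p (mu (q.2.2.1 + q.2.2.2)) (mu q.2.1) z = b)) := by
      intro b
      refine REIn.ex (S := fun z (q : ℕ × ℕ × ℕ × ℕ) =>
        R N0 q.1 ∧ R (mu q.1) q.2.1 ∧ R (mu q.2.1) q.2.2.1 ∧ R (mu q.2.2.1) q.2.2.2 ∧
        (z < la q.1 ∧ rr W p q.1 q.2.1 (q.2.2.1 + q.2.2.2) = true ∧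
          inA W p (mu (q.2.2.1 + q.2.2.2)) (mu q.2.1) z = b)) ?_
      have cadd : Computable fun x : ℕ × ℕ × ℕ × ℕ × ℕ => x.2.2.2.1 + x.2.2.2.2 :=
        (Primrec.nat_add.to_comp).comp (g := fun x : ℕ × ℕ × ℕ × ℕ × ℕ => x.2.2.2.1)
          (h := fun x : ℕ × ℕ × ℕ × ℕ × ℕ => x.2.2.2.2) (by fun_prop) (by fun_prop)
      refine (cr hR (f := fun _ : ℕ × ℕ × ℕ × ℕ × ℕ => N0) (g := fun x => x.2.1)
        (by fun_prop) (by fun_prop)).and
        ((cr hR (f := fun x : ℕ × ℕ × ℕ × ℕ × ℕ => mu x.2.1) (g := fun x => x.2.2.1)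
          (by fun_prop) (by fun_prop)).and
        ((cr hR (f := fun x : ℕ × ℕ × ℕ × ℕ × ℕ => mu x.2.2.1) (g := fun x => x.2.2.2.1)
          (by fun_prop) (by fun_prop)).and
        ((cr hR (f := fun x : ℕ × ℕ × ℕ × ℕ × ℕ => mu x.2.2.2.1) (g := fun x => x.2.2.2.2)
          (by fun_prop) (by fun_prop)).and (REIn.of_re ?_))))
      refine RE.and (RE.lt (by fun_prop) (by fun_prop)) (RE.and (RE.eq ?_
        (by fun_prop)) (RE.eq ?_ (by fun_prop)))
      · exact c_rr hcW hpc (by fun_prop) (by fun_prop) cadd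
      · exact c_inA hcW hpc (c_mu cadd) (by fun_prop) (by fun_prop)
    have snd : ∀ z (q : ℕ × ℕ × ℕ × ℕ),
        (R N0 q.1 ∧ R (mu q.1) q.2.1 ∧ R (mu q.2.1) q.2.2.1 ∧ R (mu q.2.2.1) q.2.2.2 ∧
        (z < la q.1 ∧ rr W p q.1 q.2.1 (q.2.2.1 + q.2.2.2) = true)) →
        (inA W p (mu (q.2.2.1 + q.2.2.2)) (mu q.2.1) z = true ↔ A W p z) := by
      rintro z ⟨h, k, x, y⟩ ⟨hh, hk, hx, hy, hz, hr⟩
      dsimp only at *
      have H : Chain R N0 h k x y := ⟨hh, hk, hx, hy⟩
      obtain ⟨hh0, hk0, hx0, hy0, s1, s2, s3, e1, e2, g1, g3, g4, -, -⟩ := H.good hW hB hb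
      have s4 : Sep k (x + y) := by unfold H645R2.HT.Sep; rw [e1]; exact s2
      have m3 := la_le_mu hx0
      have m4 := la_le_mu hy0
      rw [inA_lg (g3.mono hW le_rfl (by rw [e2]; unfold H645R2.HT.Sep at s3; omega))]
      rw [rr_eq' hk0 g4 s1 s4] at hr
      exact settled_of_rt' hW hB hb hc hh hk hr z hz
    have ext : ∀ z, ∃ q : ℕ × ℕ × ℕ × ℕ,
        (R N0 q.1 ∧ R (mu q.1) q.2.1 ∧ R (mu q.2.1) q.2.2.1 ∧ R (mu q.2.2.1) q.2.2.2 ∧
        (z < la q.1 ∧ rr W p q.1 q.2.1 (q.2.2.1 + q.2.2.2) = true)) := by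
      intro z
      obtain ⟨h, hh, hz, hn⟩ := hcase z
      obtain ⟨k, hk, hr⟩ := rt_of_not_settled' hW hB hb hc hh hn
      obtain ⟨x, hx⟩ := hB.ex (mu k)
      obtain ⟨y, hy⟩ := hB.ex (mu x)
      have H : Chain R N0 h k x y := ⟨hh, hk, hx, hy⟩
      obtain ⟨hh0, hk0, hx0, hy0, s1, s2, s3, e1, e2, g1, g3, g4, -, -⟩ := H.good hW hB hb
      have s4 : Sep k (x + y) := by unfold H645R2.HT.Sep; rw [e1]; exact s2
      refine ⟨(h, k, x, y), hh, hk, hx, hy, hz, ?_⟩
      dsimp only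
      rw [rr_eq' hk0 g4 s1 s4]
      exact hr
    constructor
    · refine (key true).of_eq fun z => ?_
      constructor
      · rintro ⟨q, h1, h2, h3, h4, h5, h6, h7⟩
        exact (snd z q ⟨h1, h2, h3, h4, h5, h6⟩).1 h7
      · intro ha
        obtain ⟨q, h1, h2, h3, h4, h5, h6⟩ := ext z
        exact ⟨q, h1, h2, h3, h4, h5, h6, (snd z q ⟨h1, h2, h3, h4, h5, h6⟩).2 ha⟩
    · refine (key false).of_eq fun z => ?_
      constructor
      · rintro ⟨q, h1, h2, h3, h4, h5, h6, h7⟩ ha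
        rw [(snd z q ⟨h1, h2, h3, h4, h5, h6⟩).2 ha] at h7
        cases h7
      · intro ha
        obtain ⟨q, h1, h2, h3, h4, h5, h6⟩ := ext z
        refine ⟨q, h1, h2, h3, h4, h5, h6, ?_⟩
        rw [← Bool.not_eq_true]
        exact fun h => ha ((snd z q ⟨h1, h2, h3, h4, h5, h6⟩).1 h)
  · push Not at hcase
    obtain ⟨N, hN⟩ := hcase
    have key : ∀ b : Bool, REIn X (fun z => ∃ q : ℕ × ℕ, R N0 q.1 ∧ R (mu q.1) q.2 ∧
        (z < la q.1 ∧ N < la q.1 ∧ inA W p (mu q.2) (mu q.1) z = b)) := by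
      intro b
      refine REIn.ex (S := fun z (q : ℕ × ℕ) => R N0 q.1 ∧ R (mu q.1) q.2 ∧
        (z < la q.1 ∧ N < la q.1 ∧ inA W p (mu q.2) (mu q.1) z = b)) ?_
      refine (cr hR (f := fun _ : ℕ × ℕ × ℕ => N0) (g := fun x => x.2.1)
        (by fun_prop) (by fun_prop)).and
        ((cr hR (f := fun x : ℕ × ℕ × ℕ => mu x.2.1) (g := fun x => x.2.2)
          (by fun_prop) (by fun_prop)).and (REIn.of_re ?_))
      refine RE.and (RE.lt (by fun_prop) (by fun_prop)) (RE.and (RE.lt (by fun_prop)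
        (by fun_prop)) (RE.eq ?_ (by fun_prop)))
      exact c_inA hcW hpc (by fun_prop) (by fun_prop) (by fun_prop)
    have snd : ∀ z (q : ℕ × ℕ), (R N0 q.1 ∧ R (mu q.1) q.2 ∧
        (z < la q.1 ∧ N < la q.1)) →
        (inA W p (mu q.2) (mu q.1) z = true ↔ A W p z) := by
      rintro z ⟨h, l⟩ ⟨hh, hl, hz, hn⟩
      dsimp only at *
      have m := la_le_mu (hB.pos _ _ hl)
      rw [inA_lg ((hb.long hB hh hl).mono hW le_rfl m)]
      exact hN h hh hn z hz
    have ext : ∀ z, ∃ q : ℕ × ℕ, (R N0 q.1 ∧ R (mu q.1) q.2 ∧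
        (z < la q.1 ∧ N < la q.1)) := by
      intro z
      obtain ⟨h, hh⟩ := hB.ex (max (max z N) N0)
      have := hB.sep _ _ hh
      obtain ⟨l, hl⟩ := hB.ex (mu h)
      exact ⟨(h, l), hB.mono _ _ _ (by omega) hh, hl, by dsimp only; omega,
        by dsimp only; omega⟩
    constructor
    · refine (key true).of_eq fun z => ?_
      constructor
      · rintro ⟨q, h1, h2, h3, h4, h7⟩
        exact (snd z q ⟨h1, h2, h3, h4⟩).1 h7
      · intro ha
        obtain ⟨q, h1, h2, h3, h4⟩ := ext z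
        exact ⟨q, h1, h2, h3, h4, (snd z q ⟨h1, h2, h3, h4⟩).2 ha⟩
    · refine (key false).of_eq fun z => ?_
      constructor
      · rintro ⟨q, h1, h2, h3, h4, h7⟩ ha
        rw [(snd z q ⟨h1, h2, h3, h4⟩).2 ha] at h7
        cases h7
      · intro ha
        obtain ⟨q, h1, h2, h3, h4⟩ := ext z
        refine ⟨q, h1, h2, h3, h4, ?_⟩
        rw [← Bool.not_eq_true]
        exact fun h => ha ((snd z q ⟨h1, h2, h3, h4⟩).1 h)

theorem c_gv (hW : Computable fun p : ℕ × ℕ => W p.1 p.2) :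
    Computable fun p : (ℕ × ℕ) × ℕ × ℕ => gv W p.1.1 p.1.2 p.2.1 p.2.2 := by
  unfold gv
  refine computable_exB (q := fun (p : (ℕ × ℕ) × ℕ × ℕ) z => W p.1.1 z && !(W p.2.2 z)) ?_
    (by fun_prop)
  unfold Computable₂
  have h1 := hW.comp (g := fun x : ((ℕ × ℕ) × ℕ × ℕ) × ℕ => (x.1.1.1, x.2)) (by fun_prop)
  have h2 := hW.comp (g := fun x : ((ℕ × ℕ) × ℕ × ℕ) × ℕ => (x.1.2.2, x.2)) (by fun_prop)
  dsimp only at h1 h2
  fun_prop

theorem c_col (hW : Computable fun p : ℕ × ℕ => W p.1 p.2) (hpc : Computable p) :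
    Computable fun n => col W p n := by
  unfold col
  refine c_xor (c_C (c_gv hW)) (c_C (γ := g2 W p) ?_)
  exact c_g2 hW hpc (by fun_prop) (by fun_prop) (by fun_prop) (by fun_prop)

end Pool.Agent.Q314.HT2
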