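import Pool.Agent.Q314.HT2.Core

/-!
# Blocks from finite sums, and from a set with multiples of all powers of three
-/

namespace Pool.Agent.Q314.HT2

open Pool.Agent.H645R2.HT Pool.Agent.TH747.HS Pool.Agent.Helper446 Pool.Agent.Helper446.RE
  Pool.Agent.Helper446.Oracle
open Pool.Agent.TH747.HT hiding dl el c_dl c_el

variable {X : Set ℕ}

theorem lt_pow_mu (n : ℕ) : n < 3 ^ (mu n + 1) :=
  lt_of_dg fun _ hi => dg_of_mu_lt (by omega)

theorem lt_la_of_dvd {n m : ℕ} (hn : 0 < n) (h : 3 ^ (m + 1) ∣ n) : m < la n := by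
  by_contra hc
  push Not at hc
  have h1 := mem_L.1 (la_mem hn)
  apply h1
  obtain ⟨q, rfl⟩ := h
  have : la (3 ^ (m + 1) * q) < m + 1 := by omega
  have h2 := dg_add_low (m := 0) (q := q) this
  rw [zero_add] at h2
  rw [h2]
  simp [dg]

/-! ### finite sums -/

/-- blocks which are finite sums of elements of `X` above `3 ^ (m + 1)` -/
def RF (X : Set ℕ) (m n : ℕ) : Prop := (∃ g, Cod X n g ∧ 3 ^ (m + 1) ≤ la g) ∧ m < la n

theorem RF.set {m n : ℕ} (h : RF X m n) :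
    ∃ G : Finset ℕ, G.Nonempty ∧ (G : Set ℕ) ⊆ X ∧ (∀ x ∈ G, 3 ^ (m + 1) ≤ x) ∧
      ∑ x ∈ G, x = n := by
  obtain ⟨⟨g, ⟨h1, h2, h3⟩, h4⟩, -⟩ := h
  refine ⟨(L g).toFinset, ?_, ?_, ?_, ?_⟩
  · rw [List.toFinset_nonempty_iff]
    rintro hc
    rw [hc] at h1
    exact absurd h1 (by simp)
  · intro x hx
    exact h2 x (by simpa using hx)
  · intro x hx
    exact h4.trans (la_le (by simpa using hx))
  · rw [← sum_L, h3]

theorem RF.of_set {m : ℕ} {G : Finset ℕ} (h1 : G.Nonempty) (h2 : (G : Set ℕ) ⊆ X)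
    (h3 : ∀ x ∈ G, 3 ^ (m + 1) ≤ x) (h4 : m < la (∑ x ∈ G, x)) : RF X m (∑ x ∈ G, x) := by
  obtain ⟨g, hg⟩ := exists_code G
  have hG : (L g).toFinset = G := by
    ext x
    rw [List.mem_toFinset, hg]
  have hs : (L g).sum = ∑ x ∈ G, x := by rw [sum_L, hG]
  have hne : 0 < (L g).length := by
    obtain ⟨x, hx⟩ := h1
    exact List.length_pos_of_mem ((hg x).2 hx)
  have hg0 : 0 < g := by
    rcases Nat.eq_zero_or_pos g with h | h
    · subst h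
      simp [L] at hne
    · exact h
  refine ⟨⟨g, ⟨hne, fun x hx => h2 ((hg x).1 hx), hs⟩, ?_⟩, h4⟩
  exact h3 _ ((hg _).1 (la_mem hg0))

theorem blocks_RF (hX : X.Infinite) (h0 : 0 ∉ X) : Blocks (RF X) where
  pos m n h := by
    obtain ⟨G, ⟨x, hx⟩, h2, h3, rfl⟩ := h.set
    have h4 := Finset.single_le_sum (f := fun x : ℕ => x) (fun _ _ => Nat.zero_le _) hx
    have h5 : x ≠ 0 := fun h => h0 (h ▸ h2 hx)
    omega
  sep m n h := h.2
  ex m := by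
    obtain ⟨U, hU, hUX⟩ := Pool.Agent.TH747.HT.exists_idem hX
      (fun x hx => Nat.pos_of_ne_zero fun h => h0 (h ▸ hx))
    obtain ⟨n, ⟨G, g1, g2, g3, rfl⟩, hn⟩ := ((hUX (Finset.range (3 ^ (m + 1)))).and
      (hU.dvd (N := 3 ^ (m + 1)) (by positivity))).exists
    have hpos : 0 < ∑ i ∈ G, i :=
      Finset.sum_pos (fun i hi => Nat.pos_of_ne_zero fun h => h0 (h ▸ g2 hi)) g1
    refine ⟨_, RF.of_set g1 g2 (fun x hx => ?_) (lt_la_of_dvd hpos hn)⟩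
    by_contra hc
    push Not at hc
    exact (Finset.disjoint_left.1 g3 (Finset.mem_range.2 hc)) hx
  mono m m' n hm h := by
    obtain ⟨⟨g, h1, h2⟩, h3⟩ := h
    exact ⟨⟨g, h1, (Nat.pow_le_pow_right (by norm_num) (by omega)).trans h2⟩, by omega⟩

/-- `a` is the sum of a finite subset of `X` -/
def IsS (X : Set ℕ) (a : ℕ) : Prop :=
  ∃ F : Finset ℕ, (F : Set ℕ) ⊆ X ∧ F.Nonempty ∧ ∑ x ∈ F, x = a

theorem IsS.of {m n : ℕ} (h : RF X m n) : IsS X n := by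
  obtain ⟨G, h1, h2, -, h4⟩ := h.set
  exact ⟨G, h2, h1, h4⟩

theorem IsS.add {a b : ℕ} (ha : IsS X a) (hb : RF X (mu a) b) : IsS X (a + b) := by
  obtain ⟨F, h1, h2, rfl⟩ := ha
  obtain ⟨G, g1, g2, g3, rfl⟩ := hb.set
  have hd : Disjoint F G := by
    rw [Finset.disjoint_left]
    intro x hx hx'
    have h3 := Finset.single_le_sum (f := fun x : ℕ => x) (fun _ _ => Nat.zero_le _) hx
    have h4 := g3 x hx'
    have h5 := lt_pow_mu (∑ x ∈ F, x)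
    omega
  refine ⟨F ∪ G, ?_, h2.mono Finset.subset_union_left, Finset.sum_union hd⟩
  rw [Finset.coe_union]
  exact Set.union_subset h1 g2

theorem hom_RF (hX : X.Infinite) (h0 : 0 ∉ X) {c : ℕ → Bool}
    (hc : ∃ i, ∀ F : Finset ℕ, (F : Set ℕ) ⊆ X → F.Nonempty → c (∑ n ∈ F, n) = i) :
    Hom (RF X) c := by
  have hB := blocks_RF hX h0
  obtain ⟨i, hi⟩ := hc
  have key : ∀ a, IsS X a → c a = i := by
    rintro a ⟨F, h1, h2, rfl⟩
    exact hi F h1 h2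
  have two : ∀ a b, RF X 0 a → RF X (mu a) b → IsS X (a + b) ∧ mu (a + b) = mu b :=
    fun a b ha hb => ⟨(IsS.of ha).add hb, mu_add (hB.pos _ _ hb) hb.2⟩
  have step : ∀ s m b, IsS X s → mu s = m → RF X m b → IsS X (s + b) ∧ mu (s + b) = mu b := by
    rintro s m b hs rfl hb
    exact ⟨hs.add hb, mu_add (hB.pos _ _ hb) hb.2⟩
  refine ⟨i, ?_, ?_, ?_⟩
  · intro a b d ha hb hd
    obtain ⟨h1, e1⟩ := two a b ha hb
    obtain ⟨h2, -⟩ := step _ _ d h1 e1 hd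
    rw [← add_assoc]
    exact key _ h2
  · intro a b d e ha hb hd he
    obtain ⟨h1, e1⟩ := two a b ha hb
    obtain ⟨h2, e2⟩ := step _ _ d h1 e1 hd
    obtain ⟨h3, -⟩ := step _ _ e h2 e2 he
    rw [← add_assoc, ← add_assoc]
    exact key _ h3
  · intro a b d e f ha hb hd he hf
    obtain ⟨h1, e1⟩ := two a b ha hb
    obtain ⟨h2, e2⟩ := step _ _ d h1 e1 hd
    obtain ⟨h3, e3⟩ := step _ _ e h2 e2 he
    obtain ⟨h4, -⟩ := step _ _ f h3 e3 hf
    rw [← add_assoc, ← add_assoc, ← add_assoc]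
    exact key _ h4

theorem re_RF : REIn X fun q : ℕ × ℕ => RF X q.1 q.2 := by
  have h : REIn X fun q : ℕ × ℕ => (∃ g, Cod X q.2 g ∧ 3 ^ (q.1 + 1) ≤ la g) ∧ q.1 < la q.2 := by
    refine REIn.and ?_ (REIn.of_re (RE.lt (by fun_prop) (by fun_prop)))
    refine REIn.ex (S := fun (q : ℕ × ℕ) g => Cod X q.2 g ∧ 3 ^ (q.1 + 1) ≤ la g) ?_
    refine REIn.and (re_cod (by fun_prop) (by fun_prop)) (REIn.of_re ?_)
    exact RE.le (c_pow3 (by fun_prop)) (by fun_prop)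
  exact h

/-! ### sets with multiples of all powers of three -/

/-- blocks which are elements of `X` -/
def RE1 (X : Set ℕ) (m n : ℕ) : Prop := n ∈ X ∧ m < la n

theorem blocks_RE1 (h0 : 0 ∉ X) (hX : ∀ N, ∃ x ∈ X, 3 ^ N ∣ x) : Blocks (RE1 X) where
  pos m n h := Nat.pos_of_ne_zero fun h' => h0 (h' ▸ h.1)
  sep m n h := h.2
  ex m := by
    obtain ⟨x, hx, hd⟩ := hX (m + 1)
    exact ⟨x, hx, lt_la_of_dvd (Nat.pos_of_ne_zero fun h' => h0 (h' ▸ hx)) hd⟩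
  mono m m' n hm h := ⟨h.1, by have := h.2; omega⟩

/-- `a` is the sum of `j` elements of `X` -/
def IsK (X : Set ℕ) (j a : ℕ) : Prop :=
  ∃ F : Finset ℕ, (F : Set ℕ) ⊆ X ∧ F.card = j ∧ ∑ x ∈ F, x = a

theorem IsK.of {m n : ℕ} (h : RE1 X m n) : IsK X 1 n :=
  ⟨{n}, by simpa using h.1, by simp, by simp⟩

theorem IsK.add {j a b : ℕ} (ha : IsK X j a) (hb : RE1 X (mu a) b) : IsK X (j + 1) (a + b) := by
  obtain ⟨F, h1, h2, rfl⟩ := ha
  have hb2 := hb.2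
  have hd : b ∉ F := by
    intro hx
    have h3 := Finset.single_le_sum (f := fun x : ℕ => x) (fun _ _ => Nat.zero_le _) hx
    have h5 := lt_pow_mu (∑ x ∈ F, x)
    have h6 : 3 ^ la b ∣ b := dvd_of_dg fun i hi => dg_of_lt_la hi
    have hb0 : 0 < b := by
      rcases Nat.eq_zero_or_pos b with h | h
      · subst h
        simp [la, L] at hb2
      · exact h
    have h7 := Nat.le_of_dvd hb0 h6
    have h8 : 3 ^ (mu (∑ x ∈ F, x) + 1) ≤ 3 ^ la b := Nat.pow_le_pow_right (by norm_num) hb2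
    omega
  refine ⟨insert b F, ?_, ?_, ?_⟩
  · rw [Finset.coe_insert]
    exact Set.insert_subset hb.1 h1
  · rw [Finset.card_insert_of_notMem hd, h2]
  · rw [Finset.sum_insert hd, add_comm]

theorem hom_RE1 (h0 : 0 ∉ X) (hX : ∀ N, ∃ x ∈ X, 3 ^ N ∣ x) {c : ℕ → Bool}
    (hc : ∃ i, ∀ F : Finset ℕ, (F : Set ℕ) ⊆ X → 3 ≤ F.card → F.card ≤ 5 →
      c (∑ n ∈ F, n) = i) : Hom (RE1 X) c := by
  have hB := blocks_RE1 h0 hX
  obtain ⟨i, hi⟩ := hc
  have key : ∀ j a, 3 ≤ j → j ≤ 5 → IsK X j a → c a = i := by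
    rintro j a h3 h5 ⟨F, h1, rfl, rfl⟩
    exact hi F h1 h3 h5
  have step : ∀ j s m b, IsK X j s → mu s = m → RE1 X m b →
      IsK X (j + 1) (s + b) ∧ mu (s + b) = mu b := by
    rintro j s m b hs rfl hb
    exact ⟨hs.add hb, mu_add (hB.pos _ _ hb) hb.2⟩
  refine ⟨i, ?_, ?_, ?_⟩
  · intro a b d ha hb hd
    obtain ⟨h1, e1⟩ := step 1 a _ b (IsK.of ha) rfl hb
    obtain ⟨h2, -⟩ := step _ _ _ d h1 e1 hd
    rw [← add_assoc]
    exact key _ _ (by norm_num) (by norm_num) h2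
  · intro a b d e ha hb hd he
    obtain ⟨h1, e1⟩ := step 1 a _ b (IsK.of ha) rfl hb
    obtain ⟨h2, e2⟩ := step _ _ _ d h1 e1 hd
    obtain ⟨h3, -⟩ := step _ _ _ e h2 e2 he
    rw [← add_assoc, ← add_assoc]
    exact key _ _ (by norm_num) (by norm_num) h3
  · intro a b d e f ha hb hd he hf
    obtain ⟨h1, e1⟩ := step 1 a _ b (IsK.of ha) rfl hb
    obtain ⟨h2, e2⟩ := step _ _ _ d h1 e1 hd
    obtain ⟨h3, e3⟩ := step _ _ _ e h2 e2 he
    obtain ⟨h4, -⟩ := step _ _ _ f h3 e3 hf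
    rw [← add_assoc, ← add_assoc, ← add_assoc]
    exact key _ _ (by norm_num) (by norm_num) h4

theorem re_RE1 : REIn X fun q : ℕ × ℕ => RE1 X q.1 q.2 :=
  (REIn.mem (by fun_prop)).and (REIn.of_re (RE.lt (by fun_prop) (by fun_prop)))

end Pool.Agent.Q314.HT2
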